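import Pool.Agent.H334R5.Nd.Adv

/-!
# NP and P/poly: excluding one threshold pattern

Let `x₁, …, xₘ` be polynomially many strings. A nonuniform polynomial-time algorithm (an algorithm
with advice of polynomial length, depending only on the length of the input) may try to find a
number `k` such that not exactly the first `k` of the strings belong to `A`. The theorem says that
this is possible for some `NP`-hard set `A` if and only if `NP ⊆ P/poly`.

Polynomial time is Mathlib's `Turing.TM2ComputableInPolyTime` (through `Pool.Agent.NPC.PolyTime`);
`InNP`, `NPHard` are the usual notions. `Pattern` is in `Pool.Agent.H334R5.Nd.Defs`, `InPpoly` and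
`AdvExcluder` are in `Pool.Agent.H334R5.Nd.AdvDefs`.
-/

set_option autoImplicit false

namespace Pool.Agent.Results.MP_79d702_lc.AdviceExclusion

open Pool.Agent.NPC Pool.Agent.H334R5.Nd

/-- `NP ⊆ P/poly` if and only if for some `NP`-hard set `A` a polynomial-time algorithm with advice
finds, for every list of `m ≥ q(n)` strings of length at most `n` which has a threshold pattern
(the first `j` strings are in `A`, the others are not), a number `k ≤ m` with `k ≠ j`. -/
theorem result :
    (∃ (A : Set (List Bool)) (q p : Polynomial ℕ) (adv : ℕ → List Bool)
      (E : List (List Bool) → List Bool → ℕ), NPHard A ∧ AdvExcluder A q p adv E) ↔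
      ∀ L : Set (List Bool), InNP L → InPpoly L :=
  advExcluder_iff

end Pool.Agent.Results.MP_79d702_lc.AdviceExclusion
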