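import Pool.Agent.H249R3.PolC.Final

set_option autoImplicit false

/-!
# How many oracles give `NP` circuits of size `O(n ^ k)` with a fixed `k`?

For every `k ≥ 2` and every gauge `f`, the set of the oracles relative to which every language in
`NP` has circuits of size `O(n ^ k)` is a null set for `f` if and only if for every `δ > 0` there
are infinitely many `N` with `f N ≤ 2 ^ (δ (log N) ^ (1 / k))`. The same holds for every set of
oracles between the set of the oracles relative to which every language in nondeterministic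
exponential time has circuits of size `O(n ^ k)` and the set of the oracles relative to which every
language in `P` has circuits of size `O(n ^ k)`.
-/

namespace Pool.Agent.Results.MP_79d702_lc.FixedPowerGauge

open Pool.Agent.NPC Pool.Agent.H620R2.Gauge Pool.Agent.H249R3.PolC
open Pool.Agent.H622R2.Exp (Lin InNTime)

theorem result (k : ℕ) (hk : 2 ≤ k) (f : ℕ → ℝ) :
    (Null f {A : Oracle | ∀ L, IsNP A L → PowSize k A L} ↔
      ∀ δ : ℝ, 0 < δ → ∃ᶠ N : ℕ in Filter.atTop,
        f N ≤ (2 : ℝ) ^ (δ * Real.logb 2 N ^ (1 / (k : ℝ)))) ∧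
    (∀ O : Set Oracle,
      (∀ A : Oracle, (∀ L, InNTime Lin A L → PowSize k A L) → A ∈ O) →
      (∀ A ∈ O, ∀ L, IsP A L → PowSize k A L) →
      (Null f O ↔ ∀ δ : ℝ, 0 < δ → ∃ᶠ N : ℕ in Filter.atTop,
        f N ≤ (2 : ℝ) ^ (δ * Real.logb 2 N ^ (1 / (k : ℝ))))) := by
  rw [one_div]
  exact ⟨main_np f (by omega), fun O h1 h2 => main_pow f (by omega) O h1 h2⟩

end Pool.Agent.Results.MP_79d702_lc.FixedPowerGauge
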