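import Pool.Agent.H530R3.Adv.Final

/-!
# How dense must a random oracle be for `NP` not to be contained in `P/poly`?

Choose a random oracle `A`: each string `x` is put into `A` independently of the others with
probability `p |x|`, where the densities `p n` are arbitrary numbers in `[0, 1]`. Let
`lam p n = 2 ^ n * min (p n) (1 - p n)`, the expected number of strings of length `n` at which `A`
differs from the majority value.

* If `lam p` is not bounded by a polynomial then almost surely `NP^A` is not contained in
  `coNP^A/poly`, and so not in `P^A/poly`. Nothing is assumed.
* If `lam p` is bounded by a polynomial then almost surely `P^A/poly = P/poly` and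
  `NP^A/poly = NP/poly`, so that `NP^A` is contained in `P^A/poly` (in `coNP^A/poly`) if and only if
  `NP` is contained in `P/poly` (in `coNP/poly`).

Proof of the first part. For a length `n` with `lam p n` large, cut a part of the strings of length
`n` into blocks of `j` strings each, indexed by strings `v w` with `|v| = a` and `|w| = m`, where
`a`, `m`, `j` are chosen such that `mu = 2 ^ m * q ^ j` is between `1/8` and `1/4` (`q` is the
probability of the less likely bit) and `2 ^ a`, `2 ^ m` are large. The question for `v` is whether
for some `w` the block of `v w` is full: all its strings have the less likely bit. For a fixed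
advice string, a nondeterministic algorithm for the complement has a certificate with at most `Q`
questions for each `v` without a full block. It leaves most blocks of `v` unasked, so the
probability that there is a certificate although some block is full is at least `mu / 2` times the
probability that there is a certificate and no full block. Colour the `v` at random with `2 Q`
colours: then many `v` of one colour have certificates which do not touch the other blocks of this
colour, and for these the inequalities multiply. So the algorithm with this advice is right with
probability at most `16 Q (1 + mu / 2) ^ (- m0)` with `m0` about `2 ^ a / (16 Q)`, which is much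
smaller than the inverse of the number of the advice strings. In the second part the oracle is, up
to polynomially many strings of each length, a function of the length, and what is needed of it can
be put into the advice.
-/

namespace Pool.Agent.Results.MP_79d702_lc.OracleDensityThreshold

open MeasureTheory Pool.Agent.NPC Pool.Agent.H628R3.RO
open Pool.Agent.H530R3.Thr (biasedOracle lam)
open Pool.Agent.H530R3.Adv
open Pool.Agent.H583R2.S2 (IsP)

theorem result :
    (∀ p : ℕ → unitInterval, ¬ PolyBdd (lam p) → ∀ᵐ A ∂(biasedOracle p),
      ∃ L : Set (List Bool), IsNP A L ∧ ¬ WithAdvice (IsCoNP A) L ∧ ¬ WithAdvice (IsP A) L) ∧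
    (∀ p : ℕ → unitInterval, PolyBdd (lam p) → ∀ᵐ A ∂(biasedOracle p),
      (∀ L : Set (List Bool), (WithAdvice (IsP A) L ↔ WithAdvice InP L) ∧
        (WithAdvice (IsNP A) L ↔ WithAdvice InNP L)) ∧
      ((∃ L : Set (List Bool), IsNP A L ∧ ¬ WithAdvice (IsP A) L) ↔
        ∃ L : Set (List Bool), InNP L ∧ ¬ WithAdvice InP L) ∧
      ((∃ L : Set (List Bool), IsNP A L ∧ ¬ WithAdvice (IsCoNP A) L) ↔
        ∃ L : Set (List Bool), InNP L ∧ ¬ WithAdvice InCoNP L)) ∧
    ((∃ L : Set (List Bool), InNP L ∧ ¬ WithAdvice InP L) ↔
      ∀ p : ℕ → unitInterval, ∀ᵐ A ∂(biasedOracle p), ∃ L : Set (List Bool),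
        IsNP A L ∧ ¬ WithAdvice (IsP A) L) ∧
    (∀ p : ℕ → unitInterval, PolyBdd (lam p) →
      ((∃ L : Set (List Bool), InNP L ∧ ¬ WithAdvice InP L) ↔
        0 < biasedOracle p {A | ∃ L : Set (List Bool), IsNP A L ∧ ¬ WithAdvice (IsP A) L})) :=
  ⟨fun _ h => unbounded h, fun _ h => bounded h, hard_iff, hard_iff'⟩

end Pool.Agent.Results.MP_79d702_lc.OracleDensityThreshold
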