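import Pool.Agent.H641R3.RG.MainC

/-!
# Nondeterministic read-once programs cannot approximate the chromatic number

A nondeterministic (syntactic) read-once branching program on the edge bits of a graph with `n`
vertices needs `2 ^ (c n)` nodes, `c = 1 / (2 ^ 18 g ^ 8)`, if it accepts all 2-colourable graphs
and rejects all graphs in which every independent set has fewer than `n / g` vertices. Such graphs
have chromatic number greater than `g`. So for all constants `2 ≤ k ≤ g` it needs exponentially many
nodes to tell `k`-colourable graphs from graphs with chromatic number greater than `g`; about
`n ^ 2 k ^ n` nodes suffice to decide `k`-colourability.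

Proof: for a map `α` from the vertices to two colours consider the complete bipartite graph between
the two classes, and cut an accepting computation on it into `a + 1` pieces, `a = 225 g ^ 4`, such
that in no piece more than `1 / a` of the pairs inside the two classes are read; the pieces and the
variables read at the cutting points give `2 a + 2` parts. All maps with the same cutting points can
be mixed: the program accepts the graph in which a pair of the part `t` is joined if and only if
`α_t` gives it two different colours. If this graph has an independent set `Q` with `n / g`
vertices, then each pair inside `Q` has only one colour under the `α_t` of its part. No part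
contains many pairs inside `Q`, hence the pairs inside `Q` of the single parts touch at least `5 n`
vertices altogether. A part that touches `r` vertices leaves at most the fraction `2 ^ (- r / 2)` of
the maps `α_t` for a given set `Q`, and there are only `2 ^ n` sets `Q`.
-/

set_option autoImplicit false

namespace Pool.Agent.Results.MP_79d702_lc.ReadOnceColouring

open Pool.Agent.H554R2.Sem Pool.Agent.H554R2.RK Pool.Agent.H641R3.RG

/-- `φ` enumerates the pairs of vertices; `graphOf φ x` is the graph in which the pair `φ i` is
joined if and only if `x i = true`. -/
theorem result (n g N : ℕ) (hg : 1 ≤ g) (hn : 15 * g ^ 2 ≤ n)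
    (φ : Fin N ≃ {e : Sym2 (Fin n) // ¬ e.IsDiag}) (P : NBP (Fin N)) (hP : ReadK P 1)
    (hyes : ∀ x, (graphOf φ x).Colorable 2 → Acc P x)
    (hno : ∀ x, (∀ Q : Finset (Fin n), (graphOf φ x).IsIndepSet (Q : Set (Fin n)) →
      g * Q.card < n) → ¬ Acc P x) :
    2 ^ n ≤ (Fintype.card P.State + 1) ^ (2 ^ 18 * g ^ 8) := by
  refine lowerC n g N hg hn φ P hP hyes fun x hx => ?_
  by_contra hcon
  push Not at hcon
  refine hno x (fun Q h1 => ?_) hx
  by_contra h2
  push Not at h2
  exact hcon Q h2 h1

end Pool.Agent.Results.MP_79d702_lc.ReadOnceColouring
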